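import Pool.Agent.H11ST.St3
open MeasureTheory Metric Set Filter Topology Real
open scoped ENNReal NNReal

/-!
# Networks through the points of a sphere

`card_le` = packing bound for the sphere, `exists_net` = maximal separated sets, `net` = the
networks (`ST_NET`): nets of the scales `2^-j` are connected successively.
-/

namespace H11ST
namespace Net

/-- the points of `N` lie on the sphere and have pairwise distances at least `s` -/
def Sep {d : ℕ} (x : E d) (ρ s : ℝ) (N : Finset (E d)) : Prop :=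
  (∀ p ∈ N, p ∈ sphere x ρ) ∧ ∀ p ∈ N, ∀ q ∈ N, p ≠ q → s ≤ dist p q

theorem pow_sub_le {a b : ℝ} (hb : 0 ≤ b) (hab : b ≤ a) (n : ℕ) :
    a ^ (n + 1) - b ^ (n + 1) ≤ (n + 1) * (a - b) * a ^ n := by
  induction n with
  | zero => simp
  | succ n ih =>
    have ha : 0 ≤ a := hb.trans hab
    have h1 : b ^ (n + 1) ≤ a ^ (n + 1) := pow_le_pow_left₀ hb hab _
    have h2 : a ^ (n + 1 + 1) - b ^ (n + 1 + 1) =
        a * (a ^ (n + 1) - b ^ (n + 1)) + (a - b) * b ^ (n + 1) := by ring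
    rw [h2]
    have h3 := mul_le_mul_of_nonneg_left ih ha
    have h4 := mul_le_mul_of_nonneg_left h1 (sub_nonneg.2 hab)
    push_cast
    calc _ ≤ a * ((n + 1) * (a - b) * a ^ n) + (a - b) * a ^ (n + 1) := add_le_add h3 h4
      _ = _ := by ring

theorem vol {d : ℕ} (x : E d) {ρ s : ℝ} (hs : 0 < s) (hsρ : s ≤ ρ) {N : Finset (E d)}
    (hN : Sep x ρ s N) : (N.card : ℝ) * (s / 2) ^ d + (ρ - s / 2) ^ d ≤ (ρ + s / 2) ^ d := by
  classical
  have hd : Module.finrank ℝ (E d) = d := by simp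
  set m := (volume : Measure (E d)) (ball 0 1) with hm
  have hm0 : m ≠ 0 := (measure_ball_pos _ _ one_pos).ne'
  have hmt : m ≠ ∞ := measure_ball_lt_top.ne
  have hb : ∀ (y : E d) (r : ℝ), 0 < r →
      (volume : Measure (E d)) (ball y r) = ENNReal.ofReal (r ^ d) * m := by
    intro y r hr
    rw [Measure.addHaar_ball_of_pos _ _ hr, hd]
  have h1 : (0 : ℝ) < s / 2 := by linarith
  have h2 : 0 < ρ - s / 2 := by linarith
  have h3 : 0 < ρ + s / 2 := by linarith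
  have hsph : ∀ p ∈ N, dist p x = ρ := fun p hp => mem_sphere.1 (hN.1 p hp)
  have hdis : ∀ p ∈ N, ∀ q ∈ N, p ≠ q → Disjoint (ball p (s / 2)) (ball q (s / 2)) := by
    intro p hp q hq hpq
    exact ball_disjoint_ball (by linarith [hN.2 p hp q hq hpq])
  have hU : (volume : Measure (E d)) (⋃ p ∈ N, ball p (s / 2)) =
      (N.card : ℝ≥0∞) * (ENNReal.ofReal ((s / 2) ^ d) * m) := by
    rw [measure_biUnion_finset (fun p hp q hq hpq => hdis p hp q hq hpq)
      (fun p _ => measurableSet_ball), Finset.sum_congr rfl (fun p _ => hb p _ h1),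
      Finset.sum_const, nsmul_eq_mul]
  have hdis2 : Disjoint (⋃ p ∈ N, ball p (s / 2)) (ball x (ρ - s / 2)) := by
    rw [disjoint_iUnion₂_left]
    intro p hp
    exact ball_disjoint_ball (by rw [hsph p hp]; linarith)
  have hsub : (⋃ p ∈ N, ball p (s / 2)) ∪ ball x (ρ - s / 2) ⊆ ball x (ρ + s / 2) := by
    refine union_subset (iUnion₂_subset fun p hp => ?_) (ball_subset_ball (by linarith))
    exact ball_subset_ball' (by rw [hsph p hp]; linarith)
  have hle := measure_mono (μ := (volume : Measure (E d))) hsub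
  rw [measure_union hdis2 measurableSet_ball, hU, hb x _ h2, hb x _ h3, ← mul_assoc, ← add_mul] at hle
  have hle2 := (ENNReal.mul_le_mul_iff_left hm0 hmt).1 hle
  have hc : (N.card : ℝ≥0∞) = ENNReal.ofReal (N.card : ℝ) := by simp
  rw [hc, ← ENNReal.ofReal_mul (Nat.cast_nonneg _), ← ENNReal.ofReal_add (by positivity)
    (by positivity), ENNReal.ofReal_le_ofReal_iff (by positivity)] at hle2
  exact hle2

/-- the packing constant -/
noncomputable def C1 (d : ℕ) : ℝ := d * (3 / 2) ^ (d - 1) * 2 ^ d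

theorem card_le {d : ℕ} (hd : 1 ≤ d) (x : E d) {ρ : ℝ} (hρ : 0 < ρ) (j : ℕ) {N : Finset (E d)}
    (hN : Sep x ρ (ρ / 2 ^ j) N) : (N.card : ℝ) ≤ C1 d * (2 ^ j) ^ (d - 1) := by
  obtain ⟨n, rfl⟩ : ∃ n, d = n + 1 := ⟨d - 1, by omega⟩
  have h2 : (1 : ℝ) ≤ 2 ^ j := one_le_pow₀ (by norm_num)
  have h20 : (0 : ℝ) < 2 ^ j := by positivity
  set s := ρ / 2 ^ j with hs
  have hs0 : 0 < s := by positivity
  have hsρ : s ≤ ρ := div_le_self hρ.le h2
  have hv := vol x hs0 hsρ hN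
  have h3 := pow_sub_le (a := ρ + s / 2) (b := ρ - s / 2) (by linarith) (by linarith) n
  have h4 : (ρ + s / 2) ^ n ≤ (3 / 2 * ρ) ^ n := pow_le_pow_left₀ (by positivity) (by linarith) n
  have h5 : (N.card : ℝ) * (s / 2) ^ (n + 1) ≤ (n + 1) * s * (3 / 2 * ρ) ^ n := by
    calc (N.card : ℝ) * (s / 2) ^ (n + 1) ≤ (ρ + s / 2) ^ (n + 1) - (ρ - s / 2) ^ (n + 1) := by
          linarith
      _ ≤ _ := h3
      _ = (n + 1) * s * (ρ + s / 2) ^ n := by ring
      _ ≤ _ := mul_le_mul_of_nonneg_left h4 (by positivity)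
  have h6 : (s / 2) ^ (n + 1) = ρ ^ (n + 1) / ((2 ^ j) ^ (n + 1) * 2 ^ (n + 1)) := by
    rw [hs, div_div, div_pow, mul_pow]
  have h7 : (n + 1) * s * (3 / 2 * ρ) ^ n = (n + 1) * (3 / 2) ^ n * ρ ^ (n + 1) / 2 ^ j := by
    rw [hs, mul_pow]; ring
  rw [h6, h7, mul_div_assoc', div_le_div_iff₀ (by positivity) (by positivity)] at h5
  have h8 : 0 < ρ ^ (n + 1) * 2 ^ j := by positivity
  refine le_of_mul_le_mul_right ?_ h8
  unfold C1
  rw [Nat.add_sub_cancel]
  push_cast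
  calc (N.card : ℝ) * (ρ ^ (n + 1) * 2 ^ j) = (N.card : ℝ) * ρ ^ (n + 1) * 2 ^ j := by ring
    _ ≤ _ := h5
    _ = _ := by ring

/-- maximal separated sets -/
theorem exists_net {d : ℕ} (hd : 1 ≤ d) (x : E d) {ρ : ℝ} (hρ : 0 < ρ) (j : ℕ) :
    ∃ N : Finset (E d), Sep x ρ (ρ / 2 ^ j) N ∧
      ∀ y ∈ sphere x ρ, ∃ q ∈ N, dist q y ≤ ρ / 2 ^ j := by
  classical
  let A : Set ℕ := {n | ∃ N : Finset (E d), Sep x ρ (ρ / 2 ^ j) N ∧ N.card = n}
  have hA0 : A.Nonempty := ⟨0, ∅, ⟨by simp, by simp⟩, rfl⟩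
  have hAb : BddAbove A := by
    refine ⟨⌊C1 d * (2 ^ j) ^ (d - 1)⌋₊, ?_⟩
    rintro n ⟨N, hN, rfl⟩
    exact Nat.le_floor (card_le hd x hρ j hN)
  obtain ⟨N, hN, hNc⟩ := Nat.sSup_mem hA0 hAb
  refine ⟨N, hN, fun y hy => ?_⟩
  by_contra hcon
  push Not at hcon
  have hyN : y ∉ N := fun h => by
    have := hcon y h
    rw [dist_self] at this
    have h2 : (0 : ℝ) < ρ / 2 ^ j := by positivity
    linarith
  have hS : Sep x ρ (ρ / 2 ^ j) (insert y N) := by
    refine ⟨fun p hp => ?_, fun p hp q hq hpq => ?_⟩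
    · rcases Finset.mem_insert.1 hp with rfl | hp
      exacts [hy, hN.1 p hp]
    · rcases Finset.mem_insert.1 hp with h1 | h1 <;> rcases Finset.mem_insert.1 hq with h2 | h2
      · exact absurd (h1.trans h2.symm) hpq
      · rw [h1, dist_comm]; exact (hcon q h2).le
      · rw [h2]; exact (hcon p h1).le
      · exact hN.2 p h1 q h2 hpq
  have := le_csSup hAb (show (insert y N).card ∈ A from ⟨_, hS, rfl⟩)
  rw [Finset.card_insert_of_notMem hyN, ← hNc] at this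
  omega

theorem C1_pos {d : ℕ} (hd : 1 ≤ d) : 0 < C1 d := by
  unfold C1
  have : (0 : ℝ) < d := by exact_mod_cast hd
  positivity

/-- the networks through the nets -/
theorem levels {d : ℕ} (hd : 3 ≤ d) (x : E d) {ρ : ℝ} (hρ : 0 < ρ) (J : ℕ) :
    ∃ D c, Star x ρ D c ∧ c ≤ C1 d * 2 ^ (d - 1) * ρ * (2 ^ J) ^ (d - 2) ∧
      ∀ y ∈ sphere x ρ, ∃ q ∈ D, dist q y ≤ ρ / 2 ^ J := by
  have hC := C1_pos (d := d) (by omega)
  induction J with
  | zero =>
    obtain ⟨N, hN, hN2⟩ := exists_net (d := d) (by omega) x hρ 0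
    obtain ⟨D, hD, hND⟩ := Star.spokes (x := x) hρ.le N fun p hp =>
      sphere_subset_closedBall (hN.1 p hp)
    refine ⟨D, _, hD, ?_, fun y hy => ?_⟩
    · have h1 := card_le (by omega) x hρ 0 hN
      simp only [pow_zero, one_pow, mul_one] at h1 ⊢
      have h2 : (1 : ℝ) ≤ 2 ^ (d - 1) := one_le_pow₀ (by norm_num)
      nlinarith [mul_le_mul_of_nonneg_right h1 hρ.le, mul_pos hC hρ]
    · obtain ⟨q, hq, h⟩ := hN2 y hy
      exact ⟨q, hND q hq, h⟩
  | succ J ih =>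
    obtain ⟨D, c, hD, hc, hDy⟩ := ih
    obtain ⟨N, hN, hN2⟩ := exists_net (d := d) (by omega) x hρ (J + 1)
    obtain ⟨D', hDD', hD', hND⟩ := hD.extend_many (δ := ρ / 2 ^ J) (by positivity) N
      (fun p hp => sphere_subset_closedBall (hN.1 p hp)) (fun p hp => hDy p (hN.1 p hp))
    refine ⟨D', _, hD', ?_, fun y hy => ?_⟩
    · have h1 := card_le (by omega) x hρ (J + 1) hN
      have h2J : (0 : ℝ) < 2 ^ J := by positivity
      have h3 : (N.card : ℝ) * (ρ / 2 ^ J) ≤ C1 d * 2 ^ (d - 1) * ρ * (2 ^ J) ^ (d - 2) := by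
        calc (N.card : ℝ) * (ρ / 2 ^ J) ≤ C1 d * (2 ^ (J + 1)) ^ (d - 1) * (ρ / 2 ^ J) :=
              mul_le_mul_of_nonneg_right h1 (by positivity)
          _ = C1 d * 2 ^ (d - 1) * ρ * (2 ^ J) ^ (d - 2) := by
              obtain ⟨n, rfl⟩ : ∃ n, d = n + 2 := ⟨d - 2, by omega⟩
              rw [show n + 2 - 1 = n + 1 by omega, show n + 2 - 2 = n by omega, pow_succ 2 J,
                mul_pow (2 ^ J) 2 (n + 1), pow_succ (2 ^ J) n]
              field_simp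
      have h4 : (2 : ℝ) * (2 ^ J) ^ (d - 2) ≤ (2 ^ (J + 1)) ^ (d - 2) := by
        rw [pow_succ 2 J, mul_pow]
        have : (2 : ℝ) ≤ 2 ^ (d - 2) := by
          calc (2 : ℝ) = 2 ^ 1 := by norm_num
            _ ≤ _ := pow_le_pow_right₀ (by norm_num) (by omega)
        nlinarith [pow_pos h2J (d - 2)]
      have h5 := mul_le_mul_of_nonneg_left h4 (show 0 ≤ C1 d * 2 ^ (d - 1) * ρ by positivity)
      linarith
    · obtain ⟨q, hq, h⟩ := hN2 y hy
      exact ⟨q, hND q hq, h⟩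

end Net

/-- G4: networks through points of a sphere -/
theorem net (d : ℕ) (hd : 3 ≤ d) : ST_NET d := by
  have hC := Net.C1_pos (d := d) (by omega)
  refine ⟨Net.C1 d * 2 ^ (d - 1) + 2, by positivity, ?_⟩
  intro x ρ hρ K hK P hP
  have hK0 : (0 : ℝ) < K := by exact_mod_cast hK
  have hJ1 : 2 ^ Nat.log 2 K ≤ K := Nat.pow_log_le_self 2 (by omega)
  have hJ2 : K < 2 ^ (Nat.log 2 K + 1) := Nat.lt_pow_succ_log_self (by norm_num) K
  set J := Nat.log 2 K
  have hJ1' : (2 : ℝ) ^ J ≤ K := by exact_mod_cast hJ1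
  have hJ2' : (K : ℝ) ≤ 2 * 2 ^ J := by
    have : (K : ℝ) < 2 ^ (J + 1) := by exact_mod_cast hJ2
    rw [pow_succ] at this
    linarith
  obtain ⟨D, c, hD, hc, hDy⟩ := Net.levels hd x hρ J
  have h2J : (0 : ℝ) < 2 ^ J := by positivity
  obtain ⟨D', -, hD', hPD⟩ := hD.extend_many (δ := ρ / 2 ^ J) (by positivity) P
    (fun p hp => sphere_subset_closedBall (hP p hp)) (fun p hp => hDy p (hP p hp))
  refine ⟨D', _, hD', hPD, ?_⟩
  have h1 : ρ / 2 ^ J ≤ 2 * ρ / K := by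
    rw [div_le_div_iff₀ h2J hK0]
    nlinarith
  have h2 : ((2 : ℝ) ^ J) ^ (d - 2) ≤ (K : ℝ) ^ (d - 2) := pow_le_pow_left₀ h2J.le hJ1' _
  have h3 := mul_le_mul_of_nonneg_left h1 (Nat.cast_nonneg (α := ℝ) P.card)
  have h4 := mul_le_mul_of_nonneg_left h2 (show 0 ≤ Net.C1 d * 2 ^ (d - 1) * ρ by positivity)
  have h5 : 0 ≤ Net.C1 d * 2 ^ (d - 1) * ρ * (P.card / K) := by positivity
  have h6 : 0 ≤ 2 * ρ * (K : ℝ) ^ (d - 2) := by positivity
  calc c + P.card * (ρ / 2 ^ J) ≤ Net.C1 d * 2 ^ (d - 1) * ρ * (K : ℝ) ^ (d - 2) +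
        P.card * (2 * ρ / K) := by linarith
    _ ≤ _ := by
        have : (P.card : ℝ) * (2 * ρ / K) = 2 * ρ * (P.card / K) := by ring
        rw [this]
        nlinarith

end H11ST
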