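import Pool.Agent.H11ST.Asm
import Pool.Agent.H11ST.Dbl
import Pool.Agent.Helper94.ST.GI
import Pool.Agent.Helper73.ST.Core
import Pool.Agent.Helper49.ST.Net
open MeasureTheory Metric Set Filter Topology Real
open scoped ENNReal NNReal

/-!
# The upper bound for the number of branching points, all dimensions `d ≥ 3`
-/

namespace H11ST
namespace Upper

/-- the bound for one configuration -/
theorem one {d : ℕ} (hd : 3 ≤ d) {C : ℝ}
    (hLB : ∀ (A S : Set (E d)) (x : E d) (r : ℝ), LocAdm A S x r → IsClosed A → GIat S x r →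
      ∀ a : ℝ, 0 < a → a < r → (∀ ρ, a ≤ ρ → ρ < r → (S ∩ sphere x ρ).Nonempty) →
        len S x a ^ 2 * (1 - a / r) ^ (d - 2) ≤ C * r ^ 2)
    (hgi : ST_GI d) {A S : Set (E d)} {x : E d} {r : ℝ} (L : LocAdm A S x r) (hA : IsClosed A)
    (Y : Finset (E d)) (hY : Y.Nonempty) {t : ℝ} (ht0 : 0 < t) (ht1 : t < 1)
    (hb : ∀ y ∈ Y, y ∈ ball x (t * r)) (hT : ∀ y ∈ Y, ∃ u ε, Tri S y u ε) :
    (Y.card : ℝ) ^ 2 * (1 - t) ^ (d - 1) ≤ C * 2 ^ d := by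
  have hr := L.rpos
  have htr : t * r < r := by nlinarith
  have htr0 : 0 < t * r := mul_pos ht0 hr
  obtain ⟨y, hy⟩ := hY
  have G := gi_at (by omega) hgi L hA (hT y hy)
  have hcount : ∀ ρ, t * r ≤ ρ → ρ < r → ((Y.card + 2 : ℕ) : ℕ∞) ≤ (S ∩ sphere x ρ).encard :=
    fun ρ h1 h2 => L.sphere_count hA Y ⟨y, hy⟩ hb hT h1 h2
  set a : ℝ := (1 + t) / 2 * r with ha
  have hta : t * r ≤ a := by rw [ha]; nlinarith
  have har : a < r := by rw [ha]; nlinarith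
  have ha0 : 0 < a := htr0.trans_le hta
  have h1 := G (t * r) a htr0.le hta har (Y.card + 2) (fun ρ hρ =>
    hcount ρ hρ.1.le (hρ.2.trans har))
  have h2 := hLB A S x r L hA G a ha0 har (fun ρ h3 h4 => by
    rw [← Set.encard_pos]
    refine lt_of_lt_of_le ?_ (hcount ρ (hta.trans h3) h4)
    exact_mod_cast Nat.succ_pos _)
  have h3 : 1 - a / r = (1 - t) / 2 := by
    rw [ha]; field_simp; ring
  rw [h3] at h2
  have h4 := sq_nonneg (len S x (t * r))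
  have hc0 : (0 : ℝ) ≤ Y.card := Nat.cast_nonneg _
  push_cast at h1
  have h5 : (Y.card : ℝ) ^ 2 * ((1 - t) / 4 * r ^ 2) ≤ len S x a ^ 2 := by
    have h6 : a ^ 2 - (t * r) ^ 2 = (1 - t) * (1 + 3 * t) / 4 * r ^ 2 := by rw [ha]; ring
    rw [h6] at h1
    have h7 : (1 - t) / 4 * r ^ 2 ≤ (1 - t) * (1 + 3 * t) / 4 * r ^ 2 := by
      have : 0 ≤ (1 - t) * t * r ^ 2 := by
        have := sub_pos.2 ht1
        positivity
      nlinarith
    have h8 : (Y.card : ℝ) ^ 2 ≤ ((Y.card : ℝ) + 2) ^ 2 := by nlinarith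
    have h9 : 0 ≤ (1 - t) / 4 * r ^ 2 := by
      have := sub_pos.2 ht1
      positivity
    calc (Y.card : ℝ) ^ 2 * ((1 - t) / 4 * r ^ 2) ≤ ((Y.card : ℝ) + 2) ^ 2 *
          ((1 - t) * (1 + 3 * t) / 4 * r ^ 2) := mul_le_mul h8 h7 h9 (by positivity)
      _ ≤ _ := by linarith
  have ht2 : 0 < (1 - t) / 2 := by linarith
  have h6 : (Y.card : ℝ) ^ 2 * ((1 - t) / 4 * r ^ 2) * ((1 - t) / 2) ^ (d - 2) ≤ C * r ^ 2 :=
    le_trans (mul_le_mul_of_nonneg_right h5 (by positivity)) h2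
  have h7 : ((Y.card : ℝ) ^ 2 * (1 - t) ^ (d - 1)) * r ^ 2 ≤ (C * 2 ^ d) * r ^ 2 := by
    obtain ⟨n, rfl⟩ : ∃ n, d = n + 2 := ⟨d - 2, by omega⟩
    rw [show n + 2 - 1 = n + 1 by omega]
    rw [show n + 2 - 2 = n by omega, div_pow] at h6
    have h2n : (0 : ℝ) < 2 ^ n := by positivity
    have h8 : (Y.card : ℝ) ^ 2 * ((1 - t) / 4 * r ^ 2) * ((1 - t) ^ n / 2 ^ n) =
        ((Y.card : ℝ) ^ 2 * (1 - t) ^ (n + 1)) * r ^ 2 / 2 ^ (n + 2) := by
      rw [pow_add 2 n 2, pow_succ (1 - t) n]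
      field_simp
      ring
    rw [h8, div_le_iff₀ (by positivity)] at h6
    linarith
  exact le_of_mul_le_mul_right h7 (by positivity)

end Upper

/-- UPPER: at most `C / (1 - t) ^ ((d - 1) / 2)` branching points -/
theorem upper (d : ℕ) (hd : 3 ≤ d) : ∃ C : ℝ, 0 < C ∧ ∀ t : ℝ, 0 < t → t < 1 →
    ∃ n : ℕ, Nloc d t = n ∧ (n : ℝ) ≤ C / (1 - t) ^ (((d : ℝ) - 1) / 2) := by
  obtain ⟨C, hC, hLB⟩ := lb d hd (net d hd)
  refine ⟨C * 2 ^ d + 1, by positivity, fun t ht0 ht1 => ?_⟩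
  have h1t : 0 < 1 - t := sub_pos.2 ht1
  set s : ℝ := (1 - t) ^ (((d : ℝ) - 1) / 2) with hs
  have hs0 : 0 < s := Real.rpow_pos_of_pos h1t _
  have hs2 : s ^ 2 = (1 - t) ^ (d - 1) := by
    rw [hs, ← Real.rpow_natCast, ← Real.rpow_mul h1t.le, ← Real.rpow_natCast]
    congr 1
    rw [Nat.cast_sub (by omega)]
    push_cast
    ring
  have hle : Nloc d t ≤ (⌊(C * 2 ^ d + 1) / s⌋₊ : ℕ) := by
    refine Nloc_le fun A S x r hL Y hY hb hT => ?_
    refine Nat.le_floor ?_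
    rw [le_div_iff₀ hs0]
    have h1 := Upper.one hd (fun A S x r L hA G => hLB A S x r L hA G)
      (gi d (Pool.Agent.Helper73.ST.core d)) hL.adm hL.compact.isClosed Y hY ht0 ht1 hb hT
    rw [← hs2, ← mul_pow] at h1
    have h2 : 0 < C * 2 ^ d := by positivity
    refine le_of_sq_le_sq ?_ (by positivity)
    nlinarith
  obtain ⟨n, hn⟩ := ENat.ne_top_iff_exists.1 (ne_top_of_le_ne_top (ENat.natCast_ne_top _) hle)
  refine ⟨n, hn.symm, ?_⟩
  rw [← hn] at hle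
  have h1 : n ≤ ⌊(C * 2 ^ d + 1) / s⌋₊ := by exact_mod_cast hle
  calc (n : ℝ) ≤ (⌊(C * 2 ^ d + 1) / s⌋₊ : ℝ) := by exact_mod_cast h1
    _ ≤ _ := Nat.floor_le (by positivity)

end H11ST
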